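import Pool.Agent.helper91.HZF.Spec

/-!
# Row hzf:CSB (MP_069684_lc): the number of the subsets with at most `k` elements
-/

set_option autoImplicit false

namespace Pool.Agent.HZF

open Finset Pool.Agent.helper38.Neg Pool.Agent.helper55.NT Pool.Agent.LN

theorem CSB : CSB_stmt := by
  intro B k
  classical
  have h1 : (univ.filter fun O : Finset (Fin B) => O.card ≤ k) ⊆
      (univ : Finset (Fin k → Option (Fin B))).image fun f => univ.filter fun b => ∃ i, f i = some b := by
    intro O hO
    rw [mem_filter] at hO
    rw [mem_image]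
    refine ⟨fun i => if h : i.1 < O.card then some (O.equivFin.symm ⟨i.1, h⟩).1 else none, mem_univ _, ?_⟩
    ext b
    rw [mem_filter]
    constructor
    · rintro ⟨_, i, hi⟩
      beta_reduce at hi
      by_cases h : i.1 < O.card
      · rw [dif_pos h] at hi
        rw [← Option.some.inj hi]
        exact (O.equivFin.symm ⟨i.1, h⟩).2
      · rw [dif_neg h] at hi
        exact absurd hi (by simp)
    · intro hb
      have h2 := (O.equivFin ⟨b, hb⟩).2
      refine ⟨mem_univ _, ⟨(O.equivFin ⟨b, hb⟩).1, lt_of_lt_of_le h2 hO.2⟩, ?_⟩
      beta_reduce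
      rw [dif_pos h2]
      simp
  refine (card_le_card h1).trans (card_image_le.trans ?_)
  rw [card_univ, Fintype.card_fun, Fintype.card_option, Fintype.card_fin, Fintype.card_fin]

end Pool.Agent.HZF
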